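import Pool.Agent.N900.WS.Grid
import Pool.Agent.Y882.EHF

/-! Separated families of residue systems: weighted sums with the maxima over all heights. -/

set_option autoImplicit false

open Finset Filter

namespace Pool.Agent.N900.WS

open Pool.Agent.TH926.EH
open Pool.Agent.Y882.EHF (coinc S few coinc_le)
open Pool.Agent.H300R2.WEH (errMax JJ gp JJ_facts gp_facts)

/-- the weighted sum of the maxima of the errors, for a residue system `c` -/
noncomputable def SW (κ : ℝ) (N Q : ℕ) (c : ℕ → ℕ) : ℝ :=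
  ∑ q ∈ (Icc 1 Q).filter (fun q => (c q).Coprime q), κ ^ q.primeFactors.card * errMax N q (c q)

/-- **few bad systems**, weighted -/
theorem fewW (κ : ℝ) (hκ : 1 ≤ κ) (U : ℕ) : ∃ B N₀ : ℕ, ∀ N : ℕ, N₀ ≤ N → ∀ Q : ℕ,
    (Q : ℝ) * Real.log N ^ B ≤ N →
    ∀ (ι : Type) (I : Finset ι) (c : ι → ℕ → ℕ),
      (∀ i ∈ I, ∀ j ∈ I, i ≠ j → (coinc (c i) (c j) Q : ℝ) * (Q * Real.log N ^ B) ≤ N) →
      (∀ i ∈ I, N / Real.log N ^ U < SW κ N Q (c i)) →
      (I.card : ℝ) ≤ (Q : ℝ) ^ 2 / N * Real.log N ^ B := by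
  classical
  obtain ⟨U', K, Ng, hgrid⟩ := grid κ hκ U
  obtain ⟨B1, N1, hfew⟩ := few U'
  obtain ⟨N2, hgp⟩ := gp_facts K
  obtain ⟨B, hB⟩ : ∃ B, B = B1 + (2 * K + 1) := ⟨_, rfl⟩
  have hev1 := Pool.Agent.H398R2.BV.ev_log (4 * ((N1 : ℝ) + 3)) K 1 one_pos
  have evN := tendsto_natCast_atTop_atTop (R := ℝ) |>.eventually hev1
  have t1 := (Real.tendsto_log_atTop.comp (tendsto_natCast_atTop_atTop (R := ℝ))).eventually_ge_atTop 8
  obtain ⟨x1, hx1⟩ := eventually_atTop.1 (evN.and t1)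
  refine ⟨B, max (max Ng N2) (max x1 3), fun N hN Q hQ ι I c hsep hbad => ?_⟩
  have hNg : Ng ≤ N := (le_max_left _ _).trans ((le_max_left _ _).trans hN)
  have hN2 : N2 ≤ N := (le_max_right _ _).trans ((le_max_left _ _).trans hN)
  have hNx1 : x1 ≤ N := (le_max_left _ _).trans ((le_max_right _ _).trans hN)
  have hN3 : 3 ≤ N := (le_max_right _ _).trans ((le_max_right _ _).trans hN)
  obtain ⟨e1, e2⟩ := hx1 N hNx1
  simp only [Function.comp, Real.rpow_one] at e1 e2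
  have hN0 : (0 : ℝ) < N := by exact_mod_cast (by omega : 0 < N)
  obtain ⟨L, hL⟩ : ∃ L : ℝ, L = Real.log N := ⟨_, rfl⟩
  have hL8 : 8 ≤ L := by rw [hL]; exact e2
  have hL0 : 0 < L := by linarith
  have hL1 : 1 ≤ L := by linarith
  obtain ⟨j1, j2, j3⟩ := JJ_facts K N (by rw [← hL]; exact hL1)
  rw [← hL] at j2 j3 e1
  have hLK : 0 < L ^ K := by positivity
  -- the heights
  have hy : ∀ j ∈ Icc 1 (JJ K N), (N : ℝ) / (4 * L ^ K) ≤ gp N (JJ K N) j ∧ gp N (JJ K N) j ≤ N ∧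
      N1 ≤ gp N (JJ K N) j ∧ 3 ≤ gp N (JJ K N) j ∧ 0 ≤ Real.log (gp N (JJ K N) j) ∧
      Real.log (gp N (JJ K N) j) ≤ L := by
    intro j hj
    obtain ⟨g1, g2⟩ := hgp N hN2 j hj
    rw [← hL] at g1
    have g3 : (N1 : ℝ) + 3 ≤ gp N (JJ K N) j := by
      refine le_trans ?_ g1
      rw [le_div_iff₀ (by positivity)]
      calc ((N1 : ℝ) + 3) * (4 * L ^ K) = 4 * ((N1 : ℝ) + 3) * L ^ K := by ring
        _ ≤ N := e1
    have g4 : N1 + 3 ≤ gp N (JJ K N) j := by exact_mod_cast g3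
    have g5 : (1 : ℝ) ≤ gp N (JJ K N) j := by
      have : 1 ≤ gp N (JJ K N) j := by omega
      exact_mod_cast this
    refine ⟨g1, g2, by omega, by omega, Real.log_nonneg g5, ?_⟩
    rw [hL]
    exact Real.log_le_log (by linarith) (by exact_mod_cast g2)
  -- the bad sets at the heights
  obtain ⟨Ij, hIj⟩ : ∃ Ij : ℕ → Finset ι, ∀ j, Ij j = I.filter (fun i =>
      (gp N (JJ K N) j : ℝ) / Real.log (gp N (JJ K N) j) ^ U' < S (gp N (JJ K N) j) Q (c i)) :=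
    ⟨_, fun _ => rfl⟩
  have hQN : Q ≤ N := by
    have h1 : (Q : ℝ) ≤ N := by
      refine le_trans ?_ hQ
      rw [← hL]
      exact le_mul_of_one_le_right (Nat.cast_nonneg _) (one_le_pow₀ hL1)
    exact_mod_cast h1
  have hcover : I ⊆ (Icc 1 (JJ K N)).biUnion Ij := by
    intro i hi
    by_contra hcon
    rw [mem_biUnion] at hcon
    push Not at hcon
    have h1 := hgrid N hNg ((Icc 1 Q).filter (fun q => (c i q).Coprime q)) (c i) ?_ ?_
    · exact absurd (hbad i hi) (not_lt.2 h1)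
    · intro q hq
      have h2 := mem_Icc.1 (mem_filter.1 hq).1
      exact mem_Icc.2 ⟨h2.1, h2.2.trans hQN⟩
    · intro j hj
      have h2 := hcon j hj
      rw [hIj, mem_filter, not_and, not_lt] at h2
      exact h2 hi
  have hpow : ∀ t : ℝ, 0 ≤ t → t * L ^ B ≤ N → t * (4 * L ^ K * L ^ B1) ≤ N := by
    intro t ht h
    refine le_trans ?_ h
    apply mul_le_mul_of_nonneg_left _ ht
    have h1 : L ^ B = L ^ (K + 1) * (L ^ K * L ^ B1) := by
      rw [hB, ← pow_add, ← pow_add]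
      congr 1
      ring
    have h2 : 8 ≤ L ^ (K + 1) := by
      calc (8 : ℝ) ≤ L := hL8
        _ = L ^ 1 := (pow_one _).symm
        _ ≤ L ^ (K + 1) := pow_le_pow_right₀ hL1 (by omega)
    have h3 : 0 < L ^ K * L ^ B1 := by positivity
    rw [h1]
    nlinarith
  have hcard : ∀ j ∈ Icc 1 (JJ K N), ((Ij j).card : ℝ) ≤ (Q : ℝ) ^ 2 / N * (4 * L ^ K * L ^ B1) := by
    intro j hj
    obtain ⟨g1, g2, g3, g4, g5, g6⟩ := hy j hj
    set y := gp N (JJ K N) j with hyd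
    have hy0 : (0 : ℝ) < y := by
      have : 0 < y := by omega
      exact_mod_cast this
    have hlog : Real.log y ^ B1 ≤ L ^ B1 := pow_le_pow_left₀ g5 g6 _
    have hgen : ∀ t : ℝ, 0 ≤ t → t * L ^ B ≤ N → t * Real.log y ^ B1 ≤ y := by
      intro t ht h
      have h1 := hpow t ht h
      refine le_trans ?_ g1
      rw [le_div_iff₀ (by positivity)]
      calc t * Real.log y ^ B1 * (4 * L ^ K) ≤ t * L ^ B1 * (4 * L ^ K) := by gcongr
        _ = t * (4 * L ^ K * L ^ B1) := by ring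
        _ ≤ N := h1
    have h1 := hfew y g3 Q (hgen Q (Nat.cast_nonneg _) (by rw [hL]; exact hQ)) ι (Ij j) c ?_ ?_
    · refine h1.trans ?_
      have h2 : (Q : ℝ) ^ 2 / y ≤ (Q : ℝ) ^ 2 / N * (4 * L ^ K) := by
        rw [div_mul_eq_mul_div, div_le_div_iff₀ hy0 hN0]
        have h3 : (N : ℝ) ≤ y * (4 * L ^ K) := by
          rw [div_le_iff₀ (by positivity)] at g1
          exact g1
        calc (Q : ℝ) ^ 2 * N ≤ (Q : ℝ) ^ 2 * (y * (4 * L ^ K)) := by gcongr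
          _ = _ := by ring
      calc (Q : ℝ) ^ 2 / y * Real.log y ^ B1 ≤ (Q : ℝ) ^ 2 / N * (4 * L ^ K) * L ^ B1 := by gcongr
        _ = _ := by ring
    · intro i hi i' hi' hii
      rw [hIj, mem_filter] at hi hi'
      have h2 := hsep i hi.1 i' hi'.1 hii
      rw [← hL, ← mul_assoc] at h2
      have h3 := hgen ((coinc (c i) (c i') Q : ℝ) * Q) (by positivity) h2
      rw [← mul_assoc]
      exact h3
    · intro i hi
      rw [hIj, mem_filter] at hi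
      exact hi.2
  have h1 : (I.card : ℝ) ≤ ∑ j ∈ Icc 1 (JJ K N), ((Ij j).card : ℝ) := by
    have h2 := (card_le_card hcover).trans card_biUnion_le
    exact_mod_cast h2
  have h2 : ∑ j ∈ Icc 1 (JJ K N), ((Ij j).card : ℝ) ≤
      ∑ _j ∈ Icc 1 (JJ K N), (Q : ℝ) ^ 2 / N * (4 * L ^ K * L ^ B1) := sum_le_sum hcard
  rw [sum_const, Nat.card_Icc, Nat.add_sub_cancel, nsmul_eq_mul] at h2
  rw [← hL]
  have h3 : 0 ≤ (Q : ℝ) ^ 2 / N := by positivity
  have h4 : 0 ≤ (Q : ℝ) ^ 2 / N * (4 * L ^ K * L ^ B1) := by positivity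
  calc (I.card : ℝ) ≤ (JJ K N : ℝ) * ((Q : ℝ) ^ 2 / N * (4 * L ^ K * L ^ B1)) := h1.trans h2
    _ ≤ (2 * L ^ K) * ((Q : ℝ) ^ 2 / N * (4 * L ^ K * L ^ B1)) :=
        mul_le_mul_of_nonneg_right j3 h4
    _ = (Q : ℝ) ^ 2 / N * (8 * (L ^ K * L ^ K * L ^ B1)) := by ring
    _ ≤ (Q : ℝ) ^ 2 / N * (L * (L ^ K * L ^ K * L ^ B1)) := by gcongr
    _ = (Q : ℝ) ^ 2 / N * L ^ B := by
        rw [hB]
        ring

/-- **few bad members of an affine family**, weighted -/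
theorem fewW_affine (κ : ℝ) (hκ : 1 ≤ κ) (U : ℕ) (ε D : ℝ) (hε : 0 < ε) (hD : 0 ≤ D) :
    ∃ B N₀ : ℕ, ∀ N : ℕ, N₀ ≤ N →
    ∀ Q : ℕ, (Q : ℝ) ≤ (N : ℝ) ^ (1 - ε) → ∀ u v : ℕ → ℕ, (∀ q, 1 ≤ q → (u q).Coprime q) →
      ∀ A : Finset ℕ, (∀ a ∈ A, (a : ℝ) ≤ (N : ℝ) ^ D ∧
        N / Real.log N ^ U < SW κ N Q (fun q => a * u q + v q)) →
      (A.card : ℝ) ≤ (Q : ℝ) ^ 2 / N * Real.log N ^ B := by
  obtain ⟨B, N₀, H⟩ := fewW κ hκ U
  obtain ⟨C, hC0, hC⟩ := coinc_le (ε / (2 * (D + 1))) (by positivity)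
  have ev : ∀ᶠ X : ℝ in atTop, (max 1 C) * Real.log X ^ B ≤ X ^ (ε / 2) :=
    Pool.Agent.H398R2.BV.ev_log (max 1 C) B (ε / 2) (by positivity)
  have evN := tendsto_natCast_atTop_atTop (R := ℝ) |>.eventually ev
  obtain ⟨x2, hx2⟩ := eventually_atTop.1 evN
  refine ⟨B, max (max N₀ x2) 3, fun N hN Q hQ u v hu A hA => ?_⟩
  have hN0' : N₀ ≤ N := (le_max_left _ _).trans ((le_max_left _ _).trans hN)
  have hx := hx2 N ((le_max_right _ _).trans ((le_max_left _ _).trans hN))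
  have hN3 : 3 ≤ N := (le_max_right _ _).trans hN
  have hN1 : (1 : ℝ) ≤ N := by exact_mod_cast (by omega : 1 ≤ N)
  have hN0 : (0 : ℝ) < N := by linarith
  have hl1 := log_ge_one hN3
  have hlB : 0 < Real.log N ^ B := by positivity
  have hx' : Real.log N ^ B ≤ (N : ℝ) ^ (ε / 2) := by
    refine le_trans ?_ hx
    exact le_mul_of_one_le_left hlB.le (le_max_left _ _)
  have hxC : C * Real.log N ^ B ≤ (N : ℝ) ^ (ε / 2) := by
    refine le_trans ?_ hx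
    exact mul_le_mul_of_nonneg_right (le_max_right _ _) hlB.le
  have hQB : (Q : ℝ) * Real.log N ^ B ≤ N := by
    calc (Q : ℝ) * Real.log N ^ B ≤ (N : ℝ) ^ (1 - ε) * (N : ℝ) ^ (ε / 2) := by gcongr
      _ = (N : ℝ) ^ (1 - ε / 2) := by rw [← Real.rpow_add hN0]; congr 1; ring
      _ ≤ (N : ℝ) ^ (1 : ℝ) := Real.rpow_le_rpow_of_exponent_le hN1 (by linarith)
      _ = N := Real.rpow_one _
  apply H N hN0' Q hQB ℕ A (fun a q => a * u q + v q)
  · intro a ha b hb hab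
    have hD1 : (1 : ℝ) ≤ (N : ℝ) ^ D := Real.one_le_rpow hN1 hD
    have h1 := hC ((N : ℝ) ^ D) hD1 Q u v hu a b (hA a ha).1 (hA b hb).1 hab
    have h2 : ((N : ℝ) ^ D) ^ (ε / (2 * (D + 1))) ≤ (N : ℝ) ^ (ε / 2) := by
      rw [← Real.rpow_mul hN0.le]
      apply Real.rpow_le_rpow_of_exponent_le hN1
      rw [mul_div_assoc', div_le_div_iff₀ (by positivity) (by norm_num)]
      nlinarith
    calc (coinc (fun q => a * u q + v q) (fun q => b * u q + v q) Q : ℝ) * (Q * Real.log N ^ B)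
        ≤ (C * (N : ℝ) ^ (ε / 2)) * ((N : ℝ) ^ (1 - ε) * Real.log N ^ B) := by
          apply mul_le_mul (h1.trans (mul_le_mul_of_nonneg_left h2 hC0.le)) _ (by positivity)
            (by positivity)
          gcongr
      _ = (C * Real.log N ^ B) * ((N : ℝ) ^ (ε / 2) * (N : ℝ) ^ (1 - ε)) := by ring
      _ ≤ (N : ℝ) ^ (ε / 2) * ((N : ℝ) ^ (ε / 2) * (N : ℝ) ^ (1 - ε)) := by gcongr
      _ = (N : ℝ) ^ (1 : ℝ) := by
          rw [← Real.rpow_add hN0, ← Real.rpow_add hN0]; congr 1; ring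
      _ = N := Real.rpow_one _
  · intro a ha
    exact (hA a ha).2

end Pool.Agent.N900.WS
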