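import Pool.Agent.H300R2.WEH.FamB

/-! From a bound at the heights of a grid, without weights, to the weighted sum of the maxima over all
heights, for an arbitrary residue for each modulus. -/

set_option autoImplicit false

open Finset

namespace Pool.Agent.N900.WS

open Pool.Agent.H300R2.WEH
open Pool.Agent.H442R2.EHI

/-- unweighted bounds on the grid give the weighted bound -/
theorem grid (κ : ℝ) (hκ : 1 ≤ κ) (U : ℕ) : ∃ (U' K N0 : ℕ), ∀ N : ℕ, N0 ≤ N →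
    ∀ (P : Finset ℕ) (l : ℕ → ℕ), P ⊆ Icc 1 N →
    (∀ j ∈ Icc 1 (JJ K N), ∑ d ∈ P, |H343E.piAP (gp N (JJ K N) j) d (l d) -
      H343E.pi1 (gp N (JJ K N) j) / (Nat.totient d : ℝ)| ≤
      (gp N (JJ K N) j : ℝ) / Real.log (gp N (JJ K N) j) ^ U') →
    ∑ d ∈ P, κ ^ d.primeFactors.card * errMax N d (l d) ≤ N / Real.log N ^ U := by
  have hκ2 : (1 : ℝ) ≤ κ ^ 2 := one_le_pow₀ hκ
  obtain ⟨c2, hc2⟩ := sum_log (κ ^ 2) hκ2
  obtain ⟨c1, hc1⟩ := sum_log 1 le_rfl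
  obtain ⟨W, hW⟩ := upWeight κ c2 U
  obtain ⟨U1, K, N1, hup⟩ := upMax c1 W
  obtain ⟨C, hC⟩ := pnt_err (U1 + c1 + 1)
  obtain ⟨N2, hgp⟩ := gp_facts K
  have hev1 := FinalOf.ev K (1 / 2) (by norm_num) 4 (by norm_num)
  have hev2 : ∀ᶠ X : ℝ in Filter.atTop, (4 : ℝ) ≤ X ^ (1 / 2 : ℝ) :=
    (tendsto_rpow_atTop (by norm_num)).eventually (Filter.eventually_ge_atTop _)
  have hev5 : ∀ᶠ X : ℝ in Filter.atTop,
      (4 : ℝ) + 2 ^ (U1 + 2) + 2 ^ (U1 + c1 + 2) * |C| ≤ Real.log X :=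
    Real.tendsto_log_atTop.eventually (Filter.eventually_ge_atTop _)
  have hev6 : ∀ᶠ X : ℝ in Filter.atTop, (8 : ℝ) ≤ X := Filter.eventually_ge_atTop _
  obtain ⟨Y, hY⟩ := Filter.eventually_atTop.mp (hev1.and (hev2.and (hev5.and hev6)))
  refine ⟨U1 + 1, K, max (max N1 N2) ⌈Y⌉₊, fun x hx P l hP hgrid => ?_⟩
  have hxN1 : N1 ≤ x := ((le_max_left _ _).trans (le_max_left _ _)).trans hx
  have hxN2 : N2 ≤ x := ((le_max_right _ _).trans (le_max_left _ _)).trans hx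
  obtain ⟨e1, e2, e3, e4⟩ := hY x ((Nat.le_ceil Y).trans (by
    exact_mod_cast (le_max_right _ _).trans hx))
  have p2 : (0 : ℝ) < 2 ^ (U1 + 2) := by positivity
  have p3 : (0 : ℝ) ≤ 2 ^ (U1 + c1 + 2) * |C| := by positivity
  have hx8 : 8 ≤ x := by exact_mod_cast e4
  have hx0 : (0 : ℝ) < x := by linarith
  set ℓ := Real.log (x : ℝ) with hℓ
  have hℓ4 : 4 ≤ ℓ := by linarith
  have hℓ0 : 0 < ℓ := by linarith
  have hsub : ∀ F : ℕ → ℝ, (∀ d, 0 ≤ F d) → ∑ d ∈ P, F d ≤ ∑ d ∈ Icc 1 x, F d := fun F hF =>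
    sum_le_sum_of_subset_of_nonneg hP fun d _ _ => hF d
  have hP1 : ∀ d ∈ P, 1 ≤ d ∧ d ≤ x := fun d hd => mem_Icc.1 (hP hd)
  have hsum1 : ∑ d ∈ P, 1 / (Nat.totient d : ℝ) ≤ 1 * ℓ ^ c1 := by
    rw [one_mul]
    refine (hsub (fun d => 1 / (Nat.totient d : ℝ)) (fun d => by positivity)).trans ?_
    have h := hc1 x hx8
    simp only [one_pow] at h
    exact h
  have hsum2 : ∑ d ∈ P, (κ ^ 2) ^ d.primeFactors.card / (Nat.totient d : ℝ) ≤ 1 * ℓ ^ c2 := by
    rw [one_mul]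
    exact (hsub (fun d => (κ ^ 2) ^ d.primeFactors.card / (Nat.totient d : ℝ))
      (fun d => by positivity)).trans (hc2 x hx8)
  have hmain := hup x hxN1 P (fun d => d) (fun d => l d) 1 zero_le_one
    (fun i hi => (hP1 i hi).1) hsum1 ?_
  · have h1 := hW x hx8 P (fun d => d) (fun d => errMax x d (l d)) 1 zero_le_one
      (fun d hd => ⟨errMax_nonneg _ _ _, errMax_triv x d (l d) (by omega) (hP1 d hd).1 (hP1 d hd).2⟩)
      hsum2 hmain
    rw [one_mul] at h1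
    exact h1
  · intro j hj
    obtain ⟨g1, g2⟩ := hgp x hxN2 j hj
    have hgj := hgrid j hj
    set y := gp x (JJ K x) j with hy
    have hyx : (y : ℝ) ≤ x := by exact_mod_cast g2
    -- y ≥ √x
    have hy1 : (x : ℝ) ^ (1 / 2 : ℝ) ≤ y := by
      refine le_trans ?_ g1
      rw [le_div_iff₀ (by positivity)]
      calc (x : ℝ) ^ (1 / 2 : ℝ) * (4 * ℓ ^ K) ≤ (x : ℝ) ^ (1 / 2 : ℝ) * (x : ℝ) ^ (1 / 2 : ℝ) := by
            gcongr
        _ = x := by
            rw [← Real.rpow_add hx0]; norm_num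
    have hy4 : (4 : ℝ) ≤ y := by linarith
    have hy2 : 2 ≤ y := by
      have : (2 : ℝ) ≤ y := by linarith
      exact_mod_cast this
    have hy0 : (0 : ℝ) < y := by linarith
    have hly : ℓ / 2 ≤ Real.log y := by
      have h1 := Real.log_le_log (by positivity) hy1
      rw [Real.log_rpow hx0] at h1
      linarith
    have hlyx : Real.log y ≤ ℓ := Real.log_le_log hy0 hyx
    have hly0 : 0 < Real.log y := by linarith
    have h2 := hC y hy2
    -- comparison of y/log^V y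
    have hcmp : ∀ V : ℕ, (y : ℝ) / Real.log y ^ V ≤ 2 ^ V * (x / ℓ ^ V) := by
      intro V
      have h3 : (ℓ / 2) ^ V ≤ Real.log y ^ V := by gcongr
      calc (y : ℝ) / Real.log y ^ V ≤ x / (ℓ / 2) ^ V := by gcongr
        _ = 2 ^ V * (x / ℓ ^ V) := by
            rw [div_pow]
            field_simp
    have hfirst : (y : ℝ) / Real.log y ^ (U1 + 1) ≤ (1 * x / ℓ ^ U1) / 2 := by
      have h3 := hcmp (U1 + 1)
      have h4 : (2 : ℝ) ^ (U1 + 2) ≤ ℓ := by linarith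
      have h5 : (x : ℝ) / ℓ ^ U1 = ℓ * (x / ℓ ^ (U1 + 1)) := by
        rw [pow_succ]
        field_simp
      have h6 : 0 ≤ (x : ℝ) / ℓ ^ (U1 + 1) := by positivity
      have h7 : 2 ^ (U1 + 1) * ((x : ℝ) / ℓ ^ (U1 + 1)) ≤ (x / ℓ ^ U1) / 2 := by
        rw [h5]
        rw [pow_succ] at h4
        nlinarith
      rw [one_mul]
      exact h3.trans h7
    have hsecond : |H343E.pi1 y - lis y| * (1 * ℓ ^ c1) ≤ (1 * x / ℓ ^ U1) / 2 := by
      have h3 := hcmp (U1 + c1 + 1)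
      have h4 : 2 ^ (U1 + c1 + 2) * |C| ≤ ℓ := by linarith
      have h2' : |H343E.pi1 y - lis y| ≤ |C| * (y / Real.log y ^ (U1 + c1 + 1)) := by
        refine le_trans h2 ?_
        rw [mul_div_assoc]
        apply mul_le_mul_of_nonneg_right (le_abs_self C)
        positivity
      have h5 : |H343E.pi1 y - lis y| ≤ |C| * (2 ^ (U1 + c1 + 1) * (x / ℓ ^ (U1 + c1 + 1))) :=
        h2'.trans (mul_le_mul_of_nonneg_left h3 (abs_nonneg _))
      have h6 : (x : ℝ) / ℓ ^ (U1 + c1 + 1) * ℓ ^ c1 * ℓ = x / ℓ ^ U1 := by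
        rw [show U1 + c1 + 1 = U1 + (c1 + 1) by ring, pow_add, pow_succ]
        field_simp
      have h7 : 0 ≤ (x : ℝ) / ℓ ^ (U1 + c1 + 1) * ℓ ^ c1 := by positivity
      calc |H343E.pi1 y - lis y| * (1 * ℓ ^ c1) ≤
          |C| * (2 ^ (U1 + c1 + 1) * (x / ℓ ^ (U1 + c1 + 1))) * (1 * ℓ ^ c1) := by gcongr
        _ = ((2 ^ (U1 + c1 + 2) * |C|) * (x / ℓ ^ (U1 + c1 + 1) * ℓ ^ c1) / 2) := by
            rw [pow_succ 2 (U1 + c1 + 1)]
            ring
        _ ≤ (ℓ * (x / ℓ ^ (U1 + c1 + 1) * ℓ ^ c1) / 2) := by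
            apply div_le_div_of_nonneg_right _ (by norm_num)
            exact mul_le_mul_of_nonneg_right h4 h7
        _ = (1 * x / ℓ ^ U1) / 2 := by
            rw [mul_comm ℓ, h6]
            ring
    have hpt : ∀ d ∈ P, eL y d (l d) ≤
        |H343E.piAP y d (l d) - H343E.pi1 y / (Nat.totient d : ℝ)| +
          |H343E.pi1 y - lis y| * (1 / (Nat.totient d : ℝ)) := by
      intro d hd
      unfold eL
      have e : piAP y d (l d) - lis y / (Nat.totient d : ℝ) =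
          (H343E.piAP y d (l d) - H343E.pi1 y / (Nat.totient d : ℝ)) +
          (H343E.pi1 y - lis y) * (1 / (Nat.totient d : ℝ)) := by
        have : piAP y d (l d) = H343E.piAP y d (l d) := rfl
        rw [this]
        ring
      rw [e]
      refine (abs_add_le _ _).trans ?_
      rw [abs_mul, abs_of_nonneg (by positivity : (0:ℝ) ≤ 1 / (Nat.totient d : ℝ))]
    refine (sum_le_sum hpt).trans ?_
    rw [sum_add_distrib, ← mul_sum]
    have h9 : |H343E.pi1 y - lis y| * ∑ d ∈ P, 1 / (Nat.totient d : ℝ) ≤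
        |H343E.pi1 y - lis y| * (1 * ℓ ^ c1) := mul_le_mul_of_nonneg_left hsum1 (abs_nonneg _)
    linarith

end Pool.Agent.N900.WS
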